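import Pool.Agent.W541.DL.Stm

/-!
# DL-SING: an abstract criterion for singularity
-/

set_option autoImplicit false

namespace Pool.Agent.W496.DL.SING

open MeasureTheory ProbabilityTheory Filter Topology
open Pool.Agent.W541.DL
open scoped ENNReal

lemma le_of_real {Ω : Type} [MeasurableSpace Ω] (P : Measure Ω) [IsProbabilityMeasure P]
    (s : Set Ω) (r : ℝ) (h : P.real s ≤ r) : P s ≤ ENNReal.ofReal r := by
  rw [← ENNReal.ofReal_toReal (measure_ne_top P s)]
  exact ENNReal.ofReal_le_ofReal h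

theorem main : S_SING := by
  intro Ω V _ _ P X Y hP hX H
  have hpos : ∀ k : ℕ, (0 : ℝ) < (1 / 2 : ℝ) ^ k := fun k => by positivity
  choose g θ hg h1 h2 using fun k : ℕ => H ((1 / 2 : ℝ) ^ k) (hpos k)
  have hsum : (∑' k : ℕ, ENNReal.ofReal ((1 / 2 : ℝ) ^ k)) ≠ ∞ := by
    rw [← ENNReal.ofReal_tsum_of_nonneg (fun k => (hpos k).le) summable_geometric_two]
    exact ENNReal.ofReal_ne_top
  refine ⟨⋃ K : ℕ, ⋂ k : ℕ, ⋂ _ : K ≤ k, {v | θ k ≤ g k v}, ?_, ?_, ?_⟩
  · exact MeasurableSet.iUnion fun K => MeasurableSet.iInter fun k => MeasurableSet.iInter fun _ =>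
      measurableSet_le measurable_const (hg k)
  · have hs : (∑' k : ℕ, P {ω | g k (X ω) < θ k}) ≠ ∞ := by
      refine ne_top_of_le_ne_top hsum (ENNReal.tsum_le_tsum fun k => ?_)
      exact le_of_real P _ _ (h1 k)
    filter_upwards [ae_eventually_notMem hs] with ω hω
    obtain ⟨K, hK⟩ := eventually_atTop.1 hω
    refine Set.mem_iUnion.2 ⟨K, Set.mem_iInter.2 fun k => Set.mem_iInter.2 fun hk => ?_⟩
    have := hK k hk
    simpa using this
  · have hnull : ∀ K : ℕ, P {ω | ∀ k, K ≤ k → θ k ≤ g k (Y ω)} = 0 := by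
      intro K
      have hle : ∀ k, K ≤ k → P {ω | ∀ k, K ≤ k → θ k ≤ g k (Y ω)} ≤
          ENNReal.ofReal ((1 / 2 : ℝ) ^ k) := by
        intro k hk
        refine (measure_mono fun ω hω => ?_).trans (le_of_real P _ _ (h2 k))
        exact hω k hk
      have hlim : Tendsto (fun k : ℕ => ENNReal.ofReal ((1 / 2 : ℝ) ^ k)) atTop (𝓝 0) := by
        rw [← ENNReal.ofReal_zero]
        exact ENNReal.tendsto_ofReal
          (tendsto_pow_atTop_nhds_zero_of_lt_one (by norm_num) (by norm_num))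
      have := ge_of_tendsto hlim (eventually_atTop.2 ⟨K, hle⟩)
      simpa using this
    rw [ae_iff]
    refine measure_mono_null ?_ (measure_iUnion_null hnull)
    intro ω hω
    simp only [not_not, Set.mem_setOf_eq] at hω
    obtain ⟨K, hK⟩ := Set.mem_iUnion.1 hω
    refine Set.mem_iUnion.2 ⟨K, fun k hk => ?_⟩
    exact Set.mem_iInter.1 (Set.mem_iInter.1 hK k) hk

end Pool.Agent.W496.DL.SING
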